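import Pool.Agent.Helper60.RotBorel

/-!
The proof is in `Pool.Agent.Helper60.RotBorel`: the diagonal analytic set of infinite-branch trees
is reduced continuously to the set below, by Cantor type series whose digits are indexed by the
nodes of a tree and integer conditions that force the digits to form a flow along the tree.
-/

namespace Pool.Agent.Results.MP_9e8ffd_lc.NotBorel

/-- The set of integer sequences `n` such that `z ^ n k → 1` for some `z` on the unit circle that is
not a root of unity is not a Borel subset of `ℕ → ℤ` (product of discrete topologies). -/
theorem result : ¬ @MeasurableSet (ℕ → ℤ) (borel (ℕ → ℤ))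
    {n : ℕ → ℤ | ∃ z : Circle, (∀ m : ℕ, 0 < m → z ^ m ≠ 1) ∧
      Filter.Tendsto (fun k => z ^ n k) Filter.atTop (nhds 1)} :=
  Pool.Agent.Helper60.NotBorel.not_borel

end Pool.Agent.Results.MP_9e8ffd_lc.NotBorel
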